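import Pool.Agent.N689.GA.Top

/-!
# The two top cohomology groups of Goncharov's complexes of `k(x)`, `k` algebraic over `F_p`

Let `F = k(x)` be the field of rational functions over any algebraic extension `k` of `F_p`, for
instance over a finite field. We prove that `H^(n-1)(Γ(F,n) ⊗ ℚ) = 0` and `H^n(Γ(F,n) ⊗ ℚ) = 0` for
all `n ≥ 2`. Together with `H^1(Γ(F,n) ⊗ ℚ) = 0` (`DegreeOneRationalFields`) this shows that the
complexes `Γ(F,2) ⊗ ℚ` and `Γ(F,3) ⊗ ℚ` are acyclic. Goncharov's conjecture predicts exactly this,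
because `K_m(F) ⊗ ℚ = 0` for `m ≥ 2`.

The proof uses that the elements `x ⊗ x ⊗ (1 - x)` span `Sym²(F^*) ⊗ F^* ⊗ ℚ`
(`Y775.W3.span_poly`, see also `WeightThreeRationalNumbers` on the page `MP_c727bf_nt`), the
description of the dual space of `B_2(F) ⊗ ℚ` and a Koszul complex.

The definitions are in `Pool/Agent/H39R2/GonP/Defs.lean` (`Differentials`).
-/

set_option autoImplicit false

namespace Pool.Agent.Results.MP_9c6ec7_al.TopDegreesRationalFunctions

open GonP Pool.Agent.N689.GA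

/-- `F = k(x)`, `k` algebraic over `F_p`: the differentials of all the complexes `Γ(F,n) ⊗ ℚ`,
`n ≥ 2`, exist and are unique, `Γ(F,2) ⊗ ℚ` and `Γ(F,3) ⊗ ℚ` are acyclic, and for all `n ≥ 4` the
cohomology groups of `Γ(F,n) ⊗ ℚ` of degree `n - 1`, `n` and `1` vanish. -/
theorem result (p : ℕ) [Fact p.Prime] (k : Type) [Field k] [Algebra (ZMod p) k]
    [Algebra.IsAlgebraic (ZMod p) k] :
    ∃ D : Differentials (RatFunc k), (∀ D' : Differentials (RatFunc k), D' = D) ∧
      -- `Γ(F,2) ⊗ ℚ` is acyclic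
      Function.Bijective (D.e 0) ∧
      -- `Γ(F,3) ⊗ ℚ` is acyclic
      (Function.Injective (D.d 0 0) ∧ Function.Exact (D.d 0 0) (D.e 1) ∧
        Function.Surjective (D.e 1)) ∧
      -- degree `n - 1`, `n = j + 4`
      (∀ j, Function.Exact (D.d 0 (j + 1)) (D.e (j + 2))) ∧
      -- degree `n`, `n = j + 4`
      (∀ j, Function.Surjective (D.e (j + 2))) ∧
      -- degree `1`, `n = m + 4`
      (∀ m, Function.Injective (D.d (m + 1) 0)) := by
  have hc : CharP k p := charP_of_injective_algebraMap (algebraMap (ZMod p) k).injective p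
  obtain ⟨h0, h1⟩ := Y775.W3.span_poly k p
  obtain ⟨D⟩ := H39Gon.exists_differentials k p (H39Gon.frob_fix k p)
  have hR : Pool.Agent.TH358.GP.RationalClass (RatFunc k) inferInstance :=
    Pool.Agent.TH358.GP.RationalClass.ratFunc k _
      (Pool.Agent.TH358.GP.RationalClass.base k _ (Y775.W3.hLOC.1 p k))
  obtain ⟨⟨D1, hD1, hd, he⟩, -⟩ := Pool.Agent.TH358.GP.main_class' (RatFunc k) hR
  obtain rfl : ofD D = D1 := hD1 (ofD D)
  have hex : ∀ j, Function.Exact ((ofD D).d 0 j) ((ofD D).e (j + 1)) := fun j =>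
    exact_conj (eT (RatFunc k) 1 j) (eT (RatFunc k) 0 (j + 1)) (eLQ (RatFunc k) (j + 3)) _ _
      (exact_e k p (H39Gon.frob_fix k p) h1 D j)
  have hsu : ∀ j, Function.Surjective ((ofD D).e j) := fun j =>
    (eLQ (RatFunc k) (j + 2)).symm.surjective.comp ((surj_e k h0 D j).comp
      (eT (RatFunc k) 0 j).surjective)
  exact ⟨ofD D, hD1, ⟨he, hsu 0⟩, ⟨hd 0, hex 0, hsu 1⟩, fun j => hex (j + 1), fun j => hsu (j + 2),
    fun m => hd (m + 1)⟩

end Pool.Agent.Results.MP_9c6ec7_al.TopDegreesRationalFunctions
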